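import Pool.Agent.H984R3.Per.Iter2
import Pool.Agent.H974R2.FourArm

/-!
Double points of interfaces: iteration. At the `j`-th tip of a strand the event that no open path
of unexamined edges crosses the annulus around the tip has probability at least `kap`; if it
occurs and the interface leaves the annulus later, it uses an edge examined before the tip, so it
returns to a vertex visited before.
-/

namespace H984P

open H974 Finset H342P

/-- Unexamined open edges cross the annulus around the `j`-th tip. -/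
def Fd (A y0 : ℤ) (a j : ℕ) (F : Set Edg) : Prop :=
  Cr (A + 121 * a * j) (tY A y0 F (A + 121 * a * j)) a
    ((F ∩ ↑(Bl (A + 121 * a * j) (tY A y0 F (A + 121 * a * j)) a)) \
      ↑(Exm F (st0 A y0) (tT A y0 F (A + 121 * a * j))))

/-- Crossing of `i` slabs, all trials before fail. -/
def ED (A y0 H : ℤ) (a i : ℕ) (F : Set Edg) : Prop :=
  CR A y0 H a i F ∧ ∀ j, 1 ≤ j → j < i → Fd A y0 a j F

theorem Cr.mono {c1 c2 : ℤ} {m : ℕ} {F G : Set Edg} (h : F ⊆ G) (hF : Cr c1 c2 m F) :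
    Cr c1 c2 m G := by
  obtain ⟨x, y, h1, h2, h3⟩ := hF
  exact ⟨x, y, h1, h2, h3.mono h⟩

section

variable {S : Finset Edg} {A y0 H : ℤ} {a K : ℕ}

theorem id_EE_congr (ha : 1 ≤ a) (hS : BB A y0 H a K ⊆ S) {i : ℕ} (hi : 1 ≤ i) (hiK : i ≤ K)
    {F G : Finset Edg} (hFG : F ∩ KK S A y0 H a i F = G ∩ KK S A y0 H a i F)
    (h : ED A y0 H a i (↑F : Set Edg)) : ED A y0 H a i (↑G : Set Edg) := by
  obtain ⟨hc, hf⟩ := h
  obtain ⟨g1, g2, g3⟩ := it_agree ha hS hi hiK hc hFG
  refine ⟨(it_same ha hi le_rfl hc (by exact_mod_cast g1)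
    (fun e he => by exact_mod_cast g2 e he)).2.2.1, ?_⟩
  intro j hj hji
  obtain ⟨s1, s2, _, s4⟩ := it_same ha hj hji.le hc (G := (↑G : Set Edg)) (by exact_mod_cast g1)
    (fun e he => by exact_mod_cast g2 e he)
  have h5 := hf j hj hji
  unfold Fd at h5 ⊢
  rw [s4, s2]
  refine Cr.mono ?_ h5
  rintro e ⟨⟨h1, h2⟩, h3⟩
  refine ⟨⟨?_, h2⟩, h3⟩
  have := g3 j hj hji e (Finset.mem_coe.mp h2)
  exact Finset.mem_coe.mpr (this.mp (Finset.mem_coe.mp h1))

theorem id_step (ha : 5 ≤ a) (hS : BB A y0 H a K ⊆ S) {i : ℕ} (hi : 1 ≤ i) (hiK : i ≤ K) :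
    Pr (fun _ => (1/2:ℝ)) S (fun F => ED A y0 H a i (↑F) ∧ Fd A y0 a i (↑F)) ≤
      (1 - kap) * Pr (fun _ => (1/2:ℝ)) S (fun F => ED A y0 H a i (↑F)) := by
  have ha1 : 1 ≤ a := by omega
  have hp : Ok (fun _ : Edg => (1/2:ℝ)) := fun _ => ⟨by norm_num, by norm_num⟩
  apply markov_gen hp (K := KK S A y0 H a i) (fun F _ => it_KK_sub F) (it_stop ha1 hS hi hiK)
  · intro F G _ _ hFG h
    exact id_EE_congr ha1 hS hi hiK hFG h
  · intro F0 hF0 hE
    have hc := hE.1
    have hKS : KK S A y0 H a i F0 ⊆ S := it_KK_sub F0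
    have ha' : (1:ℤ) ≤ a := by exact_mod_cast ha1
    have hi' : (1:ℤ) ≤ i := by exact_mod_cast hi
    have hai : (a:ℤ) ≤ a * i := by nlinarith
    have hKK : KK S A y0 H a i F0 = (insert (A - 1, y0, true)
        (Exm (↑F0 : Set Edg) (st0 A y0) (tT A y0 ↑F0 (A + 121 * a * i)) ∪
        (Finset.Ico 1 i).biUnion
          (fun j => Bl (A + 121 * a * j) (tY A y0 ↑F0 (A + 121 * a * j)) a))) ∩ S := by
      unfold KK
      rw [if_pos hc]
    have hkB : ∀ e ∈ KK S A y0 H a i F0,
        e ∈ Bl (A + 121 * a * i) (tY A y0 ↑F0 (A + 121 * a * i)) a →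
        e ∈ Exm (↑F0 : Set Edg) (st0 A y0) (tT A y0 ↑F0 (A + 121 * a * i)) := by
      intro e he heB
      rw [hKK, Finset.mem_inter, Finset.mem_insert, Finset.mem_union] at he
      rcases he.1 with he | he | he
      · exfalso
        rw [he] at heB
        unfold Bl at heB
        rw [mem_RE_true] at heB
        nlinarith [heB.1]
      · exact he
      · exfalso
        rw [Finset.mem_biUnion] at he
        obtain ⟨j, hj, he⟩ := he
        rw [Finset.mem_Ico] at hj
        have hji : (j:ℤ) + 1 ≤ i := by exact_mod_cast hj.2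
        have h6 : (a:ℤ) * j + a ≤ a * i := by nlinarith
        obtain ⟨x, y, b⟩ := e
        unfold Bl at he heB
        cases b
        · rw [mem_RE_false] at he heB
          have q1 := he.2.1
          have q2 := heB.1
          nlinarith
        · rw [mem_RE_true] at he heB
          have q1 := he.2.1
          have q2 := heB.1
          nlinarith
    refine le_trans (Pr_mono hp ?_) (pr_Cr ha (A + 121 * a * i)
      (tY A y0 ↑F0 (A + 121 * a * i)) (S \ KK S A y0 H a i F0))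
    intro G hG hf
    have hFG : F0 ∩ KK S A y0 H a i F0 =
        ((F0 ∩ KK S A y0 H a i F0) ∪ G) ∩ KK S A y0 H a i F0 := by
      ext e
      simp only [Finset.mem_inter, Finset.mem_union]
      constructor
      · rintro ⟨h1, h2⟩; exact ⟨Or.inl ⟨h1, h2⟩, h2⟩
      · rintro ⟨h1 | h1, h2⟩
        · exact h1
        · exact absurd h2 (Finset.mem_sdiff.mp (hG h1)).2
    obtain ⟨g1, g2, _⟩ := it_agree ha1 hS hi hiK hc hFG
    obtain ⟨s1, s2, _, s4⟩ := it_same ha1 hi le_rfl hc
      (G := (↑((F0 ∩ KK S A y0 H a i F0) ∪ G) : Set Edg)) (Finset.mem_coe.mpr g1)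
      (fun e he => by rw [Finset.mem_coe, Finset.mem_coe]; exact g2 e he)
    unfold Fd at hf
    rw [s4, s2] at hf
    refine Cr.mono ?_ hf
    rintro e ⟨⟨h1, h2⟩, h3⟩
    rw [Finset.mem_coe, Finset.mem_union] at h1
    rcases h1 with h1 | h1
    · exact absurd (Finset.mem_coe.mpr (hkB e (Finset.mem_inter.mp h1).2 (Finset.mem_coe.mp h2))) h3
    · exact Finset.mem_coe.mpr h1

theorem ED_bound (ha : 5 ≤ a) (hS : BB A y0 H a K ⊆ S) : ∀ i : ℕ, i + 1 ≤ K →
      Pr (fun _ => (1/2:ℝ)) S (fun F => ED A y0 H a (i+1) (↑F)) ≤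
        (1 - kap) ^ i * Pr (fun _ => (1/2:ℝ)) S (fun F => Long' A y0 H a 1 (↑F)) := by
  have hp : Ok (fun _ : Edg => (1/2:ℝ)) := fun _ => ⟨by norm_num, by norm_num⟩
  have hk : kap ≤ 1 := kap_le
  intro i
  induction i with
  | zero =>
    intro _
    rw [pow_zero, one_mul]
    apply Pr_mono hp
    intro F _ hE
    exact ⟨_, _, by simpa using hE.1.1, by simpa using hE.1.2⟩
  | succ i ih =>
    intro h1
    have h3 : 0 ≤ 1 - kap := by linarith
    have h4 : Pr (fun _ => (1/2:ℝ)) S (fun F => ED A y0 H a (i+1+1) (↑F)) ≤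
        Pr (fun _ => (1/2:ℝ)) S (fun F => ED A y0 H a (i+1) (↑F) ∧ Fd A y0 a (i+1) (↑F)) := by
      refine Pr_mono hp fun F _ hE => ?_
      exact ⟨⟨(it_down (by omega) (by omega) (by omega) hE.1).1,
        fun j hj hji => hE.2 j hj (by omega)⟩, hE.2 (i+1) (by omega) (by omega)⟩
    refine h4.trans ((id_step ha hS (by omega) (by omega)).trans ?_)
    calc (1 - kap) * _ ≤ (1 - kap) * ((1 - kap) ^ i *
          Pr (fun _ => (1/2:ℝ)) S (fun F => Long' A y0 H a 1 (↑F))) :=
          mul_le_mul_of_nonneg_left (ih (by omega)) h3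
      _ = _ := by ring

end

/-- The orbit of `σ` has, up to time `T`, a double point with a loop of size at least `a`. -/
def DPt (F : Set Edg) (σ : St) (T : ℕ) (a : ℤ) : Prop :=
  ∃ i j m : ℕ, i ≤ j ∧ j ≤ m ∧ m ≤ T ∧ (orb F σ i).1 = (orb F σ m).1 ∧
    Far (orb F σ i).1 a (orb F σ j).1

/-- A strand over `K` slabs without such a double point. -/
def NoDP (A y0 H : ℤ) (a K : ℕ) (F : Set Edg) : Prop :=
  ∃ (Y : ℤ) (T : ℕ), Strand F A y0 (A + 121 * a * K) Y T ∧
    (∀ s ≤ T, |(orb F (st0 A y0) s).1.2 - y0| ≤ H) ∧ ¬ DPt F (st0 A y0) T a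

/-- The deterministic step: if the trial at the `j`-th tip succeeds and the strand goes on, there
is a double point. -/
theorem dp_det {A y0 H : ℤ} {a i j : ℕ} {F : Set Edg} (ha : 1 ≤ a) (hj : 1 ≤ j) (hji : j < i)
    (h : CR A y0 H a i F) (hf : ¬ Fd A y0 a j F) :
    DPt F (st0 A y0) (tT A y0 F (A + 121 * a * i)) a := by
  obtain ⟨hcj, hT⟩ := it_down ha hj hji.le h
  set X : ℤ := A + 121 * a * j with hX
  set T := tT A y0 F X with hTd
  set Y := tY A y0 F X with hY
  set T' := tT A y0 F (A + 121 * a * i) with hT'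
  set σ := st0 A y0 with hσ
  have ha' : (1:ℤ) ≤ a := by exact_mod_cast ha
  have hji' : (j:ℤ) + 1 ≤ i := by exact_mod_cast hji
  have htip : (orb F σ T).1 = (X, Y) := by rw [hcj.1.tip]
  have hend : (orb F σ T').1.1 = A + 121 * a * i := by rw [h.1.tip]
  have hfar : Far (X, Y) (3 * a) (orb F σ T').1 := by
    right; left
    rw [hend, hX]
    simp only
    nlinarith
  -- first exit from the large box after `T`
  classical
  have hex : ∃ t, T ≤ t ∧ Far (X, Y) (3 * a) (orb F σ t).1 := ⟨T', hT, hfar⟩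
  set t2 := Nat.find hex with ht2
  obtain ⟨h21, h22⟩ := Nat.find_spec hex
  rw [← ht2] at h21 h22
  have ht2T : t2 ≤ T' := Nat.find_le ⟨hT, hfar⟩
  have hin : ∀ s, T ≤ s → s < t2 → ¬ Far (X, Y) (3 * a) (orb F σ s).1 := by
    intro s h1 h2 h3
    exact Nat.find_min hex h2 ⟨h1, h3⟩
  -- last time in the small box before `t2`
  have hsm : ¬ Far (X, Y) (a + 1) (orb F σ T).1 := by
    rw [htip]; unfold Far; simp only; omega
  have hlast : ∃ t1, T ≤ t1 ∧ t1 ≤ t2 ∧ ¬ Far (X, Y) (a + 1) (orb F σ t1).1 ∧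
      ∀ s, t1 < s → s ≤ t2 → Far (X, Y) (a + 1) (orb F σ s).1 := by
    have hP : ∃ n, n ≤ t2 ∧ T ≤ t2 - n ∧ ¬ Far (X, Y) (a + 1) (orb F σ (t2 - n)).1 :=
      ⟨t2 - T, by omega, by omega, by rw [show t2 - (t2 - T) = T by omega]; exact hsm⟩
    obtain ⟨n0, ⟨hn1, hn2, hn3⟩, hmin⟩ : ∃ n0, (n0 ≤ t2 ∧ T ≤ t2 - n0 ∧
        ¬ Far (X, Y) (a + 1) (orb F σ (t2 - n0)).1) ∧ ∀ m < n0, ¬ (m ≤ t2 ∧ T ≤ t2 - m ∧
        ¬ Far (X, Y) (a + 1) (orb F σ (t2 - m)).1) :=
      ⟨Nat.find hP, Nat.find_spec hP, fun m hm => Nat.find_min hP hm⟩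
    refine ⟨t2 - n0, hn2, by omega, hn3, ?_⟩
    intro s h1 h2
    by_contra h3
    apply hmin (t2 - s) (by omega)
    refine ⟨by omega, by omega, ?_⟩
    rw [show t2 - (t2 - s) = s by omega]
    exact h3
  obtain ⟨t1, h11, h12, h13, h14⟩ := hlast
  have ht12 : t1 < t2 := by
    rcases Nat.lt_or_ge t1 t2 with h5 | h5
    · exact h5
    · exfalso
      have : t1 = t2 := by omega
      rw [this] at h13
      apply h13
      unfold Far at h22 ⊢
      simp only at h22 ⊢
      omega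
  -- some open edge examined before the tip is used
  by_cases hu : ∃ m, t1 ≤ m ∧ m < t2 ∧ ae (orb F σ m) ∈ F ∧ ae (orb F σ m) ∈ Exm F σ T
  · obtain ⟨m, hm1, hm2, hm3, hm4⟩ := hu
    rw [mem_Exm] at hm4
    obtain ⟨s, hs, hse⟩ := hm4
    -- both endpoints of the edge are visited at times `s` and `s+1`
    have hop : ae (orb F σ s) ∈ F := by rw [hse]; exact hm3
    have hv1 : (orb F σ (s + 1)).1 = (mv (orb F σ s)).1 := by
      rw [orb_succ, nxt_open hop]
    have hv2 : (orb F σ (m + 1)).1 = (mv (orb F σ m)).1 := by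
      rw [orb_succ, nxt_open hm3]
    have hends : ∀ ρ : St, ((ρ.1 = src (ae ρ) ∧ (mv ρ).1 = tgt (ae ρ)) ∨
        (ρ.1 = tgt (ae ρ) ∧ (mv ρ).1 = src (ae ρ))) := by
      rintro ⟨⟨x, y⟩, c⟩
      cases c
      · left; simp
      · left; simp
      · right; simp
      · right; simp
    have hfm : Far (X, Y) (a + 1) (orb F σ (m + 1)).1 := h14 _ (by omega) (by omega)
    have hkey : ∃ i' ≤ T, (orb F σ i').1 = (orb F σ (m + 1)).1 := by
      rcases hends (orb F σ s) with ⟨e1, e2⟩ | ⟨e1, e2⟩ <;>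
      rcases hends (orb F σ m) with ⟨e3, e4⟩ | ⟨e3, e4⟩
      · exact ⟨s + 1, by omega, by rw [hv1, hv2, e2, e4, hse]⟩
      · exact ⟨s, by omega, by rw [hv2, e1, e4, hse]⟩
      · exact ⟨s, by omega, by rw [hv2, e1, e4, hse]⟩
      · exact ⟨s + 1, by omega, by rw [hv1, hv2, e2, e4, hse]⟩
    obtain ⟨i', hi', he'⟩ := hkey
    refine ⟨i', T, m + 1, hi', by omega, by omega, he', ?_⟩
    rw [he', htip]
    unfold Far at hfm ⊢
    simp only at hfm ⊢
    omega
  · exfalso
    push Not at hu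
    apply hf
    unfold Fd
    rw [← hX, ← hY, ← hTd, ← hσ]
    have hreach : ∀ n, t1 + n ≤ t2 → Reach ((F ∩ ↑(Bl X Y a)) \ ↑(Exm F σ T))
        (orb F σ t1).1 (orb F σ (t1 + n)).1 := by
      intro n
      induction n with
      | zero => intro _; exact Reach.refl _ _
      | succ n ih =>
        intro hn
        have h5 := ih (by omega)
        by_cases ho : ae (orb F σ (t1 + n)) ∈ F
        · refine h5.trans ?_
          have h6 := hu (t1 + n) (by omega) (by omega) ho
          have h7 : (orb F σ (t1 + n + 1)).1 = (mv (orb F σ (t1 + n))).1 := by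
            rw [orb_succ, nxt_open ho]
          have h8 := hin (t1 + n) (by omega) (by omega)
          rw [← add_assoc, h7]
          have hB : ae (orb F σ (t1 + n)) ∈ Bl X Y a := by
            unfold Far at h8
            unfold Bl
            generalize orb F σ (t1 + n) = ρ at h8
            obtain ⟨⟨x, y⟩, c⟩ := ρ
            simp only at h8
            cases c
            · rw [ae_ne, mem_RE_true]; omega
            · rw [ae_nw, mem_RE_false]; omega
            · rw [ae_sw, mem_RE_true]; omega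
            · rw [ae_se, mem_RE_false]; omega
          have hmem : ae (orb F σ (t1 + n)) ∈ (F ∩ ↑(Bl X Y a)) \ (↑(Exm F σ T) : Set Edg) :=
            ⟨⟨ho, Finset.mem_coe.mpr hB⟩, fun h9 => h6 (Finset.mem_coe.mp h9)⟩
          apply Relation.ReflTransGen.single
          refine ⟨_, hmem, ?_⟩
          generalize orb F σ (t1 + n) = ρ
          obtain ⟨⟨x, y⟩, c⟩ := ρ
          cases c
          · left; simp
          · left; simp
          · right; simp
          · right; simp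
        · have h7 : (orb F σ (t1 + n + 1)).1 = (orb F σ (t1 + n)).1 := by
            rw [orb_succ, nxt_closed ho]
            generalize orb F σ (t1 + n) = ρ
            obtain ⟨v, c⟩ := ρ
            cases c <;> simp
          rw [← add_assoc, h7]
          exact h5
    have h9 := hreach (t2 - t1) (by omega)
    rw [show t1 + (t2 - t1) = t2 by omega] at h9
    refine ⟨_, _, ?_, ?_, h9⟩
    · unfold Far at h13
      unfold inR
      simp only at h13 ⊢
      omega
    · unfold Far at h22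
      simp only at h22 ⊢
      omega

theorem iterate_dp {S : Finset Edg} {A y0 H : ℤ} {a K : ℕ} (ha : 5 ≤ a) (hK : 1 ≤ K)
    (hS : RE (A - 60 * a) (A + 121 * a * K + 60 * a) (y0 - H - 60 * a) (y0 + H + 60 * a) ⊆ S) :
    Pr (fun _ => (1/2:ℝ)) S (fun F => NoDP A y0 H a K (↑F)) ≤
      (1 - kap) ^ (K - 1) * Pr (fun _ => (1/2:ℝ)) S (fun F => Long' A y0 H a 1 (↑F)) := by
  have hp : Ok (fun _ : Edg => (1/2:ℝ)) := fun _ => ⟨by norm_num, by norm_num⟩
  have hS' : BB A y0 H a K ⊆ S := hS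
  obtain ⟨K', rfl⟩ : ∃ K', K = K' + 1 := ⟨K - 1, by omega⟩
  rw [Nat.add_sub_cancel]
  refine le_trans (Pr_mono hp fun F _ hF => ?_) (ED_bound ha hS' K' le_rfl)
  obtain ⟨Y, T, hst, hcf, hno⟩ := hF
  have hc := it_long (i := K' + 1) ⟨Y, T, hst, hcf⟩
  obtain ⟨e1, _⟩ := it_of_strand hst
  refine ⟨hc, fun j hj hji => ?_⟩
  by_contra hf
  apply hno
  have := dp_det (by omega) hj hji hc hf
  rwa [e1] at this

end H984P
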